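import Mathlib

set_option autoImplicit false

namespace Pool.Agent.Results.MP_b1d502_nt.Counter

noncomputable def nz (x : ℝ) : ℝ := |x - round x|

def Speed {k : ℕ} (s : Fin k → ℕ) : Prop := Function.Injective s ∧ ∀ i, 0 < s i

def A {k : ℕ} (s : Fin k → ℕ) : Set (Fin k → ℝ) :=
  {d | (∀ i, 0 < d i ∧ d i ≤ 1 / 2) ∧ ∃ t : ℝ, ∀ i, d i ≤ nz (s i * t)}

theorem result : ∃ k : ℕ, 1 ≤ k ∧ ∀ F : Set (Fin k → ℕ), F.Finite → (∀ s ∈ F, Speed s) →
    ∃ d : Fin k → ℝ, (∀ i, 0 < d i ∧ d i ≤ 1 / 2) ∧ (∀ s ∈ F, d ∈ A s) ∧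
      ∃ s, Speed s ∧ d ∉ A s := by
  refine ⟨3, by norm_num, fun F hF hS => ?_⟩
  obtain ⟨B, hB⟩ := ((hF.image fun s => s 0 + s 1).insert 1).bddAbove
  have hB1 : (1 : ℝ) ≤ B := by exact_mod_cast hB (Set.mem_insert _ _)
  have hBs : ∀ s ∈ F, (s 0 : ℝ) + s 1 ≤ B := fun s hs => by
    exact_mod_cast hB (Set.mem_insert_of_mem _ ⟨s, hs, rfl⟩)
  obtain ⟨η, hη, h0, h1⟩ := exists_irrational_btwn (show (0 : ℝ) < 1 / (8 * B) by positivity)
  rw [lt_div_iff₀ (by positivity)] at h1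
  have h8 : η < 1 / 8 := by nlinarith
  have hpos : ∀ s ∈ F, 0 < nz (s 2 * ((1 / 2 + η) / s 0)) := fun s hs => by
    have hi : Irrational ((s 2 : ℝ) * ((1 / 2 + η) / s 0)) := by
      refine Irrational.natCast_mul (Irrational.div_natCast ?_ ((hS s hs).2 0).ne') ((hS s hs).2 2).ne'
      simpa using hη.ratCast_add (1 / 2)
    exact abs_pos.mpr (sub_ne_zero.mpr (hi.ne_int _))
  obtain ⟨ε, hε, hε1, hε2⟩ : ∃ ε : ℝ, 0 < ε ∧ ε ≤ 1 / 2 ∧
      ∀ s ∈ F, ε ≤ nz (s 2 * ((1 / 2 + η) / s 0)) := by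
    rcases F.eq_empty_or_nonempty with rfl | hne
    · exact ⟨1 / 2, by norm_num, le_rfl, by simp⟩
    · obtain ⟨s, hs, hm⟩ := Set.exists_min_image F (fun s => nz (s 2 * ((1 / 2 + η) / s 0))) hF hne
      exact ⟨_, hpos s hs, abs_sub_round _, hm⟩
  have hd : ∀ i, 0 < ![1 / 2 - η, 2 * η, ε] i ∧ ![1 / 2 - η, 2 * η, ε] i ≤ 1 / 2 := fun i => by
    fin_cases i <;> simp <;> constructor <;> linarith
  refine ⟨![1 / 2 - η, 2 * η, ε], hd, fun s hs => ⟨hd, (1 / 2 + η) / s 0, fun i => ?_⟩, ?_⟩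
  · have a0 : (1 : ℝ) ≤ s 0 := by exact_mod_cast (hS s hs).2 0
    have a1 : (1 : ℝ) ≤ s 1 := by exact_mod_cast (hS s hs).2 1
    have hb := hBs s hs
    fin_cases i
    · change 1 / 2 - η ≤ |(s 0 : ℝ) * _ - round ((s 0 : ℝ) * ((1 / 2 + η) / s 0))|
      generalize round ((s 0 : ℝ) * ((1 / 2 + η) / s 0)) = m
      rw [mul_div_cancel₀ _ (by positivity)]
      rcases le_or_gt m 0 with h | h
      · have : (m : ℝ) ≤ 0 := by exact_mod_cast h
        exact le_abs.mpr (Or.inl (by linarith))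
      · have : (1 : ℝ) ≤ m := by exact_mod_cast h
        exact le_abs.mpr (Or.inr (by linarith))
    · change 2 * η ≤ |(s 1 : ℝ) * _ - round ((s 1 : ℝ) * ((1 / 2 + η) / s 0))|
      generalize round ((s 1 : ℝ) * ((1 / 2 + η) / s 0)) = m
      rw [show (s 1 : ℝ) * ((1 / 2 + η) / s 0) - m =
        (((s 1 - 2 * s 0 * m : ℤ) : ℝ) + 2 * s 1 * η) / (2 * s 0) by push_cast; field_simp; ring,
        abs_div, abs_of_pos (show (0 : ℝ) < 2 * s 0 by positivity), le_div_iff₀ (by positivity)]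
      rcases lt_trichotomy ((s 1 : ℤ) - 2 * s 0 * m) 0 with h | h | h
      · have : (((s 1 - 2 * s 0 * m : ℤ) : ℝ)) ≤ -1 := by exact_mod_cast Int.le_sub_one_of_lt h
        exact le_abs.mpr (Or.inr (by nlinarith))
      · have h2 : (s 1 : ℝ) = 2 * s 0 * m := by exact_mod_cast sub_eq_zero.mp h
        have h3 : (1 : ℝ) ≤ m := by
          have : (0 : ℝ) < m := by by_contra h4; nlinarith
          exact_mod_cast this
        rw [h, Int.cast_zero]
        have h5 := mul_nonneg (mul_nonneg (show (0 : ℝ) ≤ s 0 by linarith) h0.le) (sub_nonneg.mpr h3)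
        exact le_abs.mpr (Or.inl (by rw [h2]; nlinarith))
      · have : (1 : ℝ) ≤ ((s 1 - 2 * s 0 * m : ℤ) : ℝ) := by exact_mod_cast h
        exact le_abs.mpr (Or.inl (by nlinarith))
    · exact hε2 s hs
  · obtain ⟨N, hN⟩ := exists_nat_gt (3 / ε)
    obtain ⟨k, hk, -, hk2⟩ := Real.exists_nat_abs_mul_sub_round_le (1 / 2 - η) (Nat.succ_pos N)
    refine ⟨![1, 2, 3 * k], ⟨fun i j h => ?_, fun i => ?_⟩, ?_⟩
    · fin_cases i <;> fin_cases j <;> simp at h ⊢ <;> omega
    · fin_cases i <;> simp [hk]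
    · rintro ⟨-, t, ht⟩
      have t0 : 1 / 2 - η ≤ |t - round t| := by simpa [nz] using ht 0
      have t1 : 2 * η ≤ |2 * t - round (2 * t)| := by simpa [nz] using ht 1
      have t2 : ε ≤ |3 * k * t - round (3 * k * t)| := by simpa [nz] using ht 2
      have t3 := abs_sub_round t
      rw [div_lt_iff₀ hε] at hN
      rw [le_div_iff₀ (by positivity)] at hk2
      push_cast at hk2
      generalize round (k * (1 / 2 - η)) = m at hk2
      have key : ∀ σ : ℤ, |(σ : ℝ)| = 1 → t - round t = σ * (1 / 2 - η) → False := fun σ h1 h2 => by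
        have := t2.trans (round_le _ (3 * k * round t + 3 * σ * m))
        rw [show 3 * k * t - ((3 * k * round t + 3 * σ * m : ℤ) : ℝ) =
          3 * (σ * (k * (1 / 2 - η) - m)) by push_cast; linear_combination 3 * k * h2,
          abs_mul, abs_mul, h1, abs_of_pos (show (0 : ℝ) < 3 by norm_num)] at this
        nlinarith [abs_nonneg (k * (1 / 2 - η) - m)]
      rcases le_abs.mp t0 with h | h
      · have := t1.trans (round_le _ (2 * round t + 1))
        push_cast at this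
        rw [abs_of_nonpos (by linarith [le_abs_self (t - round t)])] at this
        exact key 1 (by simp) (by push_cast; linarith)
      · have := t1.trans (round_le _ (2 * round t - 1))
        push_cast at this
        rw [abs_of_nonneg (by linarith [neg_abs_le (t - round t)])] at this
        exact key (-1) (by simp) (by push_cast; linarith)

end Pool.Agent.Results.MP_b1d502_nt.Counter
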